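import Pool.Agent.Helper13.Sof.Goals

/-!
# Packet ALGC: generation and conjugation of the concrete subgroups
-/

namespace Pool.Agent.Helper96.Sof

open Matrix Polynomial Pool.Agent.Helper13.Sof

noncomputable section

/-- `dg` as a homomorphism -/
def dgH (p : ℕ) : Lam p →* GG p where
  toFun := dg
  map_one' := by
    refine Units.ext ?_
    show Matrix.diagonal (fun i : Fin 4 => if i = 3 then MonoidAlgebra.of (ZMod p) (Lam p) 1 else 1)
      = 1
    rw [map_one, ← Matrix.diagonal_one]
    congr 1
    funext i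
    split_ifs <;> rfl
  map_mul' σ τ := by
    refine Units.ext ?_
    show Matrix.diagonal (fun i : Fin 4 => if i = 3 then MonoidAlgebra.of (ZMod p) (Lam p) (σ * τ)
      else 1) = Matrix.diagonal (fun i : Fin 4 => if i = 3 then MonoidAlgebra.of (ZMod p) (Lam p) σ
      else 1) * Matrix.diagonal (fun i : Fin 4 => if i = 3 then
        MonoidAlgebra.of (ZMod p) (Lam p) τ else 1)
    rw [Matrix.diagonal_mul_diagonal]
    congr 1
    funext i
    split_ifs
    · rw [map_mul]
    · simp

lemma dgH_apply {p : ℕ} (σ : Lam p) : dgH p σ = dg σ := rfl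

lemma dg_inv {p : ℕ} (σ : Lam p) : dg σ⁻¹ = (dg σ)⁻¹ := map_inv (dgH p) σ

lemma single_neg' {p : ℕ} (i j : Fin 4) (a : Rng p) :
    Matrix.single i j (-a) = -Matrix.single i j a := by
  rw [eq_neg_iff_add_eq_zero, ← Matrix.single_add, neg_add_cancel, Matrix.single_zero]

/-- commutators of elementary matrices over the group algebra -/
lemma eu_comm {p : ℕ} {i j k : Fin 4} (hij : i ≠ j) (hjk : j ≠ k) (hik : i ≠ k) (a b : Rng p) :
    eu i j hij a * eu j k hjk b * (eu i j hij a)⁻¹ * (eu j k hjk b)⁻¹ = eu i k hik (a * b) := by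
  refine Units.ext ?_
  show (1 + Matrix.single i j a) * (1 + Matrix.single j k b) * (1 + Matrix.single i j (-a)) *
    (1 + Matrix.single j k (-b)) = 1 + Matrix.single i k (a * b)
  rw [single_neg', single_neg']
  have hxy : Matrix.single i j a * Matrix.single j k b = Matrix.single i k (a * b) :=
    Matrix.single_mul_single_same ..
  have hxx : Matrix.single i j a * Matrix.single i j a = 0 :=
    Matrix.single_mul_single_of_ne (h := hij.symm) ..
  have hyy : Matrix.single j k b * Matrix.single j k b = 0 :=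
    Matrix.single_mul_single_of_ne (h := hjk.symm) ..
  have hyx : Matrix.single j k b * Matrix.single i j a = 0 :=
    Matrix.single_mul_single_of_ne (h := hik.symm) ..
  rw [← hxy]
  generalize Matrix.single i j a = x at *
  generalize Matrix.single j k b = y at *
  have e : (1 + x) * (1 + y) * (1 + -x) * (1 + -y) =
      1 + x * y - x * x - (y * x) - (y * y) + x * x * y + (y * x) * y - x * (y * x) - x * (y * y)
        + x * (y * x) * y := by
    noncomm_ring
  rw [e, hxx, hyx, hyy]
  simp

/-- conjugation by diagonal matrices -/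
lemma dg_conj {p : ℕ} (σ : Lam p) {i j : Fin 4} (hij : i ≠ j) (c : Rng p) :
    dg σ * eu i j hij c * (dg σ)⁻¹ = eu i j hij
      ((if i = 3 then MonoidAlgebra.of (ZMod p) (Lam p) σ else 1) * c *
        (if j = 3 then MonoidAlgebra.of (ZMod p) (Lam p) σ⁻¹ else 1)) := by
  rw [mul_inv_eq_iff_eq_mul]
  refine Units.ext ?_
  show Matrix.diagonal (fun i : Fin 4 => if i = 3 then MonoidAlgebra.of (ZMod p) (Lam p) σ else 1) *
    (1 + Matrix.single i j c) = (1 + Matrix.single i j _) *
    Matrix.diagonal (fun i : Fin 4 => if i = 3 then MonoidAlgebra.of (ZMod p) (Lam p) σ else 1)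
  rw [mul_add, add_mul, mul_one, one_mul]
  congr 1
  ext a b
  rw [Matrix.diagonal_mul, Matrix.mul_diagonal]
  by_cases ha : i = a
  · by_cases hb : j = b
    · subst ha; subst hb
      rw [Matrix.single_apply_same, Matrix.single_apply_same]
      by_cases hj : j = 3
      · simp only [hj, if_true]
        rw [mul_assoc _ (MonoidAlgebra.of (ZMod p) (Lam p) σ⁻¹), ← map_mul, inv_mul_cancel, map_one,
          mul_one]
      · simp only [hj, if_false, mul_one]
    · rw [Matrix.single_apply_of_ne, Matrix.single_apply_of_ne, mul_zero, zero_mul]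
      · exact fun h => hb h.2
      · exact fun h => hb h.2
  · rw [Matrix.single_apply_of_ne, Matrix.single_apply_of_ne, mul_zero, zero_mul]
    · exact fun h => ha h.1
    · exact fun h => ha h.1

/-- `1 + X E_{02}` is a commutator -/
lemma el02 (p : ℕ) [Fact p.Prime] : el 0 2 (by decide) X = lα p * lβ p * (lα p)⁻¹ * (lβ p)⁻¹ := by
  rw [eq_mul_inv_iff_mul_eq, eq_mul_inv_iff_mul_eq]
  refine Subtype.ext ?_
  show Matrix.transvection 0 2 (X : (ZMod p)[X]) * Matrix.transvection 1 2 1 *
    Matrix.transvection 0 1 X = Matrix.transvection 0 1 X * Matrix.transvection 1 2 1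
  ext1 i j
  fin_cases i <;> fin_cases j <;>
    simp [Matrix.transvection, Matrix.mul_apply, Fin.sum_univ_succ, Matrix.single_apply,
      Matrix.one_apply]

theorem algClos : AlgClos := by
  intro p _
  constructor
  · have hl : ∀ j, lfam p j ∈ Subgroup.closure (Set.range (lfam p)) := fun j =>
      Subgroup.subset_closure ⟨j, rfl⟩
    set H := (Subgroup.closure (Set.range (lfam p))).comap (dgH p) with hH
    have hα : lα p ∈ H := hl 0
    have hβ : lβ p ∈ H := hl 1
    have hγ : lγ p ∈ H := hl 2
    have ht : lt p ∈ H := by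
      unfold lt
      rw [el02]
      exact H.mul_mem (H.mul_mem (H.mul_mem (H.mul_mem hα hβ) (H.inv_mem hα)) (H.inv_mem hβ)) hγ
    intro i
    fin_cases i
    · exact H.inv_mem hβ
    · exact H.inv_mem ht
    · exact H.inv_mem (H.mul_mem hα ht)
  · have hl : ∀ j, ufam p j ∈ Subgroup.closure (Set.range (ufam p)) := fun j =>
      Subgroup.subset_closure ⟨j, rfl⟩
    set H := (Subgroup.closure (Set.range (ufam p))).comap (dgH p) with hH
    have hβ' : (lβ p)⁻¹ ∈ H := hl 0
    have ht' : (lt p)⁻¹ ∈ H := hl 1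
    have hat' : (lα p * lt p)⁻¹ ∈ H := hl 2
    have hβ : lβ p ∈ H := H.inv_mem_iff.1 hβ'
    have ht : lt p ∈ H := H.inv_mem_iff.1 ht'
    have hat : lα p * lt p ∈ H := H.inv_mem_iff.1 hat'
    have hα : lα p ∈ H := by
      have := H.mul_mem hat ht'
      rwa [mul_inv_cancel_right] at this
    have hγ : lγ p ∈ H := by
      have h1 : el 0 2 (by decide) X ∈ H := by
        rw [el02]
        exact H.mul_mem (H.mul_mem (H.mul_mem hα hβ) (H.inv_mem hα)) (H.inv_mem hβ)
      have h2 := H.mul_mem (H.inv_mem h1) ht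
      have h3 : (el 0 2 (by decide) X)⁻¹ * lt p = lγ p := by
        unfold lt lγ
        rw [inv_mul_cancel_left]
      rwa [h3] at h2
    intro j
    fin_cases j
    · exact hα
    · exact hβ
    · exact hγ

lemma eu_congr {p : ℕ} {i j : Fin 4} (h : i ≠ j) {a b : Rng p} (e : a = b) :
    eu i j h a = eu i j h b := by rw [e]

lemma comm_mem {G : Type} [Group G] (H : Subgroup G) {x y : G} (hx : x ∈ H) (hy : y ∈ H) :
    x * y * x⁻¹ * y⁻¹ ∈ H :=
  H.mul_mem (H.mul_mem (H.mul_mem hx hy) (H.inv_mem hx)) (H.inv_mem hy)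

theorem algMono : AlgMono := by
  intro p _ i j
  set H := Subgroup.closure (Set.range (kfam p)) with hH
  have hk : ∀ j, kfam p j ∈ H := fun j => Subgroup.subset_closure ⟨j, rfl⟩
  have h01 : eu 0 1 (by decide) 1 ∈ H := hk 0
  have h12 : eu 1 2 (by decide) 1 ∈ H := hk 1
  have h23 : eu 2 3 (by decide) 1 ∈ H := hk 2
  have h13 : eu 1 3 (by decide) 1 ∈ H := by
    have h := comm_mem H h12 h23
    rwa [eu_comm (i := 1) (j := 2) (k := 3) (by decide) (by decide) (by decide), mul_one] at h
  have h03 : eu 0 3 (by decide) 1 ∈ H := by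
    have h := comm_mem H h01 h13
    rwa [eu_comm (i := 0) (j := 1) (k := 3) (by decide) (by decide) (by decide), mul_one] at h
  have hs : ∀ s : Lam p, eu 2 0 (by decide) (MonoidAlgebra.of (ZMod p) (Lam p) s) ∈ H →
      ∀ j, dg s⁻¹ * kfam p j * (dg s⁻¹)⁻¹ ∈ H := by
    intro s hs j
    have h2 : eu 2 3 (by decide) (MonoidAlgebra.of (ZMod p) (Lam p) s) ∈ H := by
      have h := comm_mem H hs h03
      rwa [eu_comm (i := 2) (j := 0) (k := 3) (by decide) (by decide) (by decide), mul_one] at h
    have gen : ∀ (a b : Fin 4) (hab : a ≠ b) (c : Rng p), a ≠ 3 → b ≠ 3 → eu a b hab c ∈ H →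
        dg s⁻¹ * eu a b hab c * (dg s⁻¹)⁻¹ ∈ H := by
      intro a b hab c ha hb hc
      rw [dg_conj, if_neg ha, if_neg hb, one_mul, mul_one]
      exact hc
    fin_cases j
    · exact gen 0 1 (by decide) _ (by decide) (by decide) (hk 0)
    · exact gen 1 2 (by decide) _ (by decide) (by decide) (hk 1)
    · show dg s⁻¹ * eu 2 3 (by decide) 1 * (dg s⁻¹)⁻¹ ∈ H
      rw [dg_conj, if_neg (by decide), if_pos rfl, one_mul, one_mul, inv_inv]
      exact h2
    · exact gen 2 0 (by decide) _ (by decide) (by decide) (hk 3)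
    · exact gen 2 0 (by decide) _ (by decide) (by decide) (hk 4)
    · exact gen 2 0 (by decide) _ (by decide) (by decide) (hk 5)
  fin_cases i
  · exact hs (lβ p) (hk 3) j
  · exact hs (lt p) (hk 4) j
  · exact hs (lα p * lt p) (hk 5) j

end

end Pool.Agent.Helper96.Sof
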